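import Pool.Agent.PVD.StmtsG

/-! Squad PVD (MP_e25c73_gt), block G, module NRM: the normals. -/

set_option autoImplicit false

open MeasureTheory Metric Set Filter Topology

namespace PVD.H12

open PV PV3 PVD

theorem inner_nv {n : ℕ} (φ : E n →ₗᵢ[ℝ] E (n + 1)) (A : Finset (Fin (n + 1))) (x : E n) :
    inner ℝ x (nv φ A) = ∑ i ∈ A, φ x i := by
  unfold nv
  rw [ContinuousLinearMap.adjoint_inner_right, inner_sum]
  apply Finset.sum_congr rfl
  intro i _
  rw [EuclideanSpace.inner_single_right]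
  simp

theorem inner_eq_sum {m : ℕ} (x y : E m) : inner ℝ x y = ∑ i, x i * y i := by
  rw [PiLp.inner_apply]
  apply Finset.sum_congr rfl
  intro i _
  simp [mul_comm]

theorem nv_eq {n : ℕ} {φ : E n →ₗᵢ[ℝ] E (n + 1)} (hφ : Emb n φ) (A : Finset (Fin (n + 1))) :
    ∀ i, φ (nv φ A) i = (if i ∈ A then 1 else 0) - (A.card : ℝ) / ((n : ℝ) + 1) := by
  have hN : (0 : ℝ) < (n : ℝ) + 1 := by positivity
  let y : E (n + 1) := WithLp.toLp 2 (fun i => (if i ∈ A then (1 : ℝ) else 0) -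
    (A.card : ℝ) / ((n : ℝ) + 1))
  have hy : ∀ i, y i = (if i ∈ A then (1 : ℝ) else 0) - (A.card : ℝ) / ((n : ℝ) + 1) := by
    intro i; rfl
  have hs : ∑ i, y i = 0 := by
    have h1 : ∑ i, y i = ∑ i : Fin (n + 1), ((if i ∈ A then (1 : ℝ) else 0) -
        (A.card : ℝ) / ((n : ℝ) + 1)) := rfl
    rw [h1, Finset.sum_sub_distrib, Finset.sum_const, Finset.card_univ, Fintype.card_fin,
      Finset.sum_ite_mem, Finset.univ_inter, Finset.sum_const, nsmul_eq_mul, nsmul_eq_mul]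
    push_cast
    field_simp
    ring
  obtain ⟨z, hz⟩ := hφ.surj y hs
  have hnz : nv φ A = z := by
    apply ext_inner_left ℝ
    intro x
    rw [inner_nv, ← φ.inner_map_map x z, hz, inner_eq_sum]
    have h2 : ∀ i, φ x i * y i = (if i ∈ A then φ x i else 0) -
        (A.card : ℝ) / ((n : ℝ) + 1) * φ x i := by
      intro i
      rw [hy i]
      by_cases hi : i ∈ A
      · simp only [hi, if_true]; ring
      · simp only [hi, if_false]; ring
    rw [Finset.sum_congr rfl (fun i _ => h2 i), Finset.sum_sub_distrib, ← Finset.mul_sum,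
      hφ.sum x, mul_zero, sub_zero, Finset.sum_ite_mem, Finset.univ_inter]
  intro i
  rw [hnz, hz]

theorem nu_sq {n : ℕ} (r : ℕ) (hr : r ≤ n + 1) :
    nu n r ^ 2 = (r : ℝ) * ((n : ℝ) + 1 - r) / ((n : ℝ) + 1) := by
  have h1 : (r : ℝ) ≤ (n : ℝ) + 1 := by exact_mod_cast hr
  have h2 : (0 : ℝ) ≤ (n : ℝ) + 1 - r := by linarith
  unfold nu
  rw [Real.sq_sqrt]
  positivity

theorem nu_symm (n r : ℕ) (hr : r ≤ n + 1) : nu n (n + 1 - r) = nu n r := by
  unfold nu
  congr 1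
  rw [Nat.cast_sub hr]
  push_cast
  ring

theorem norm_nv {n : ℕ} {φ : E n →ₗᵢ[ℝ] E (n + 1)} (hφ : Emb n φ) (A : Finset (Fin (n + 1))) :
    ‖nv φ A‖ = nu n A.card := by
  have hc : A.card ≤ n + 1 := by
    have := Finset.card_le_univ A
    rwa [Fintype.card_fin] at this
  have hN : (0 : ℝ) < (n : ℝ) + 1 := by positivity
  have h1 : ‖nv φ A‖ ^ 2 = nu n A.card ^ 2 := by
    rw [← real_inner_self_eq_norm_sq, inner_nv, nu_sq _ hc]
    have h2 : ∀ i ∈ A, φ (nv φ A) i = 1 - (A.card : ℝ) / ((n : ℝ) + 1) := by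
      intro i hi
      rw [nv_eq hφ A i, if_pos hi]
    rw [Finset.sum_congr rfl h2, Finset.sum_const, nsmul_eq_mul]
    field_simp
  have h3 : 0 ≤ nu n A.card := Real.sqrt_nonneg _
  exact (pow_left_inj₀ (norm_nonneg _) h3 two_ne_zero).1 h1

theorem nv_compl {n : ℕ} {φ : E n →ₗᵢ[ℝ] E (n + 1)} (hφ : Emb n φ) (A : Finset (Fin (n + 1))) :
    nv φ Aᶜ = - nv φ A := by
  apply ext_inner_left ℝ
  intro x
  rw [inner_neg_right, inner_nv, inner_nv]
  have := Finset.sum_add_sum_compl A (fun i => φ x i)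
  rw [hφ.sum x] at this
  linarith

theorem nrm : NRMStmt := by
  intro n φ hφ
  refine ⟨fun A x => inner_nv φ A x, ?_, fun r hr => nu_symm n r hr⟩
  have hpos : ∀ A : Finset (Fin (n + 1)), 0 < A.card → A.card < n + 1 → 0 < nu n A.card := by
    intro A h0 h1
    unfold nu
    apply Real.sqrt_pos.2
    have h2 : (0 : ℝ) < A.card := by exact_mod_cast h0
    have h3 : (A.card : ℝ) < (n : ℝ) + 1 := by exact_mod_cast h1
    have h4 : (0 : ℝ) < (n : ℝ) + 1 - A.card := by linarith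
    positivity
  have hval : ∀ (A : Finset (Fin (n + 1))) (i : Fin (n + 1)), φ (wn φ A) i = (nu n A.card)⁻¹ *
      ((if i ∈ A then 1 else 0) - (A.card : ℝ) / ((n : ℝ) + 1)) := by
    intro A i
    unfold wn
    rw [map_smul, PiLp.smul_apply, nv_eq hφ A i, smul_eq_mul]
  have hsg : ∀ (A : Finset (Fin (n + 1))), 0 < A.card → A.card < n + 1 → ∀ i,
      (0 < φ (wn φ A) i ↔ i ∈ A) := by
    intro A h0 h1 i
    have hn := hpos A h0 h1
    have h2 : (0 : ℝ) < A.card := by exact_mod_cast h0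
    have h3 : (A.card : ℝ) < (n : ℝ) + 1 := by exact_mod_cast h1
    have h4 : (0 : ℝ) < (n : ℝ) + 1 := by positivity
    rw [hval A i]
    by_cases hi : i ∈ A
    · rw [if_pos hi]
      refine ⟨fun _ => hi, fun _ => ?_⟩
      apply mul_pos (inv_pos.2 hn)
      rw [sub_pos, div_lt_one h4]
      exact h3
    · rw [if_neg hi]
      refine ⟨fun h => ?_, fun h => absurd h hi⟩
      exfalso
      have h5 : (0 : ℝ) < (A.card : ℝ) / ((n : ℝ) + 1) := by positivity
      have h6 : (nu n A.card)⁻¹ * (0 - (A.card : ℝ) / ((n : ℝ) + 1)) < 0 :=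
        mul_neg_of_pos_of_neg (inv_pos.2 hn) (by linarith)
      linarith
  intro A h0 h1
  have hn := hpos A h0 h1
  refine ⟨hn, ?_, ?_, ?_, nv_eq hφ A, ?_⟩
  · unfold wn
    rw [norm_smul, norm_nv hφ, norm_inv, Real.norm_of_nonneg hn.le, inv_mul_cancel₀ hn.ne']
  · intro x
    unfold wn
    rw [real_inner_smul_right, inner_nv, div_eq_inv_mul]
  · have hc : A.card ≤ n + 1 := h1.le
    unfold wn
    rw [nv_compl hφ, Finset.card_compl, Fintype.card_fin, nu_symm n _ hc, smul_neg]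
  · intro B hB0 hB1 h
    ext i
    rw [← hsg A h0 h1 i, ← hsg B hB0 hB1 i, h]

end PVD.H12
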