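import Pool.Agent.PVD.StmtsG

/-! Squad PVD (MP_e25c73_gt), block G, module PLC: the symmetric polytope as a polyhedron of squad
PV3; it is a convex body. -/

set_option autoImplicit false

open MeasureTheory Metric Set Filter Topology

namespace PVD.H12

open PV PV3 PVD

theorem plc_closed {n : ℕ} (U : Finset (E n)) (c : E n → ℝ) : IsClosed (Pl U c) := by
  have h : Pl U c = ⋂ w ∈ U, {x | inner ℝ x w ≤ c w} := by
    ext x
    simp only [Pl, mem_ofPred_eq, mem_iInter]
  rw [h]
  refine isClosed_biInter fun w _ => ?_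
  exact isClosed_le (continuous_id.inner continuous_const) continuous_const

theorem plc_convex {n : ℕ} (U : Finset (E n)) (c : E n → ℝ) : Convex ℝ (Pl U c) := by
  intro x hx y hy a b ha hb hab w hw
  rw [inner_add_left, real_inner_smul_left, real_inner_smul_left]
  calc a * inner ℝ x w + b * inner ℝ y w ≤ a * c w + b * c w :=
        add_le_add (mul_le_mul_of_nonneg_left (hx w hw) ha)
          (mul_le_mul_of_nonneg_left (hy w hw) hb)
    _ = c w := by rw [← add_mul, hab, one_mul]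

theorem plc_full {n : ℕ} (U : Finset (E n)) (c : E n → ℝ) (hc : ∀ w ∈ U, 0 < c w) :
    Full (Pl U c) := by
  refine ⟨0, ?_⟩
  rw [mem_interior]
  refine ⟨⋂ w ∈ U, {x | inner ℝ x w < c w}, ?_, ?_, ?_⟩
  · intro x hx w hw
    rw [mem_iInter₂] at hx
    exact (hx w hw).le
  · apply isOpen_biInter_finset
    intro w _
    exact isOpen_lt (continuous_id.inner continuous_const) continuous_const
  · rw [mem_iInter₂]
    intro w hw
    show inner ℝ (0 : E n) w < c w
    rw [inner_zero_left]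
    exact hc w hw

/-- the average over all permutations -/
theorem avg_perm {m : ℕ} (y : Fin (m + 1) → ℝ) (hy : ∑ i, y i = 0) (A : Finset (Fin (m + 1))) :
    ∑ σ : Equiv.Perm (Fin (m + 1)), ∑ k ∈ A, y (σ k) = 0 := by
  have h1 : ∀ k k' : Fin (m + 1), ∑ σ : Equiv.Perm (Fin (m + 1)), y (σ k) =
      ∑ σ : Equiv.Perm (Fin (m + 1)), y (σ k') := by
    intro k k'
    apply Fintype.sum_equiv (Equiv.mulRight (Equiv.swap k k'))
    intro σ
    show y (σ k) = y ((σ * Equiv.swap k k') k')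
    rw [Equiv.Perm.mul_apply, Equiv.swap_apply_right]
  have h2 : ∑ k : Fin (m + 1), ∑ σ : Equiv.Perm (Fin (m + 1)), y (σ k) = 0 := by
    rw [Finset.sum_comm]
    apply Finset.sum_eq_zero
    intro σ _
    rw [Equiv.sum_comp σ y, hy]
  have h3 : ∀ k : Fin (m + 1), ∑ σ : Equiv.Perm (Fin (m + 1)), y (σ k) = 0 := by
    intro k
    have h4 : ∑ k' : Fin (m + 1), ∑ σ : Equiv.Perm (Fin (m + 1)), y (σ k') =
        ∑ _k' : Fin (m + 1), ∑ σ : Equiv.Perm (Fin (m + 1)), y (σ k) :=
      Finset.sum_congr rfl (fun k' _ => h1 k' k)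
    rw [h2, Finset.sum_const, Finset.card_univ, Fintype.card_fin, nsmul_eq_mul] at h4
    have h5 : ((m + 1 : ℕ) : ℝ) ≠ 0 := by positivity
    exact (mul_eq_zero.1 h4.symm).resolve_left h5
  rw [Finset.sum_comm]
  exact Finset.sum_eq_zero (fun k _ => h3 k)

/-- if all sums over `r`-sets are nonpositive and the total is zero then the vector is zero -/
theorem zero_of_sums {m : ℕ} (y : Fin (m + 1) → ℝ) (hy : ∑ i, y i = 0) (r : ℕ) (h1 : 1 ≤ r)
    (h2 : r ≤ m) (h : ∀ A : Finset (Fin (m + 1)), A.card = r → ∑ i ∈ A, y i ≤ 0) :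
    ∀ i, y i = 0 := by
  have hmap : ∀ (A : Finset (Fin (m + 1))) (σ : Equiv.Perm (Fin (m + 1))),
      ∑ k ∈ A.map σ.toEmbedding, y k = ∑ k ∈ A, y (σ k) := by
    intro A σ
    rw [Finset.sum_map]
    rfl
  have hz : ∀ A : Finset (Fin (m + 1)), A.card = r → ∀ σ : Equiv.Perm (Fin (m + 1)),
      ∑ k ∈ A, y (σ k) = 0 := by
    intro A hA
    have h3 : ∀ σ ∈ (Finset.univ : Finset (Equiv.Perm (Fin (m + 1)))), ∑ k ∈ A, y (σ k) ≤ 0 := by
      intro σ _
      rw [← hmap]
      apply h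
      rw [Finset.card_map, hA]
    have h4 := (Finset.sum_eq_zero_iff_of_nonpos h3).1 (avg_perm y hy A)
    intro σ
    exact h4 σ (Finset.mem_univ σ)
  have heq : ∀ i j, y i = y j := by
    intro i j
    by_cases hij : i = j
    · rw [hij]
    have hc1 : ({i} : Finset (Fin (m + 1))) ⊆ Finset.univ.erase j := by
      intro x hx
      rw [Finset.mem_singleton] at hx
      rw [hx]
      exact Finset.mem_erase.2 ⟨hij, Finset.mem_univ _⟩
    have hc2 : (Finset.univ.erase j : Finset (Fin (m + 1))).card = m := by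
      rw [Finset.card_erase_of_mem (Finset.mem_univ j), Finset.card_univ, Fintype.card_fin]
      rfl
    have hc3 : ({i} : Finset (Fin (m + 1))).card ≤ r := by rw [Finset.card_singleton]; exact h1
    have hc4 : r ≤ (Finset.univ.erase j : Finset (Fin (m + 1))).card := by rw [hc2]; exact h2
    obtain ⟨A, hA1, hA2, hA3⟩ := Finset.exists_subsuperset_card_eq hc1 hc3 hc4
    have hiA : i ∈ A := hA1 (Finset.mem_singleton_self i)
    have hjA : j ∉ A := fun hj => (Finset.mem_erase.1 (hA2 hj)).1 rfl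
    have e1 := hz A hA3 1
    have e2 := hz A hA3 (Equiv.swap i j)
    rw [← Finset.add_sum_erase A _ hiA] at e1 e2
    have e3 : ∑ k ∈ A.erase i, y ((Equiv.swap i j) k) = ∑ k ∈ A.erase i, y ((1 :
        Equiv.Perm (Fin (m + 1))) k) := by
      apply Finset.sum_congr rfl
      intro k hk
      have hki : k ≠ i := (Finset.mem_erase.1 hk).1
      have hkj : k ≠ j := by
        intro hkj
        rw [hkj] at hk
        exact hjA (Finset.mem_erase.1 hk).2
      rw [Equiv.swap_apply_of_ne_of_ne hki hkj]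
      rfl
    rw [e3, Equiv.swap_apply_left] at e2
    have e4 : y ((1 : Equiv.Perm (Fin (m + 1))) i) = y i := rfl
    rw [e4] at e1
    linarith
  intro i
  have h6 : ∑ k, y k = ∑ _k : Fin (m + 1), y i := Finset.sum_congr rfl (fun k _ => heq k i)
  rw [hy, Finset.sum_const, Finset.card_univ, Fintype.card_fin, nsmul_eq_mul] at h6
  have h5 : ((m + 1 : ℕ) : ℝ) ≠ 0 := by positivity
  exact (mul_eq_zero.1 h6.symm).resolve_left h5

theorem plc (hN : NRMStmt) (hBDL : PV3.BDLStmt) : PLCStmt := by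
  intro n φ R hφ hR
  obtain ⟨-, hN2, -⟩ := hN n φ hφ
  have hcd : ∀ A : Finset (Fin (n + 1)), A.card ∈ R → 0 < A.card ∧ A.card < n + 1 := by
    intro A hA
    obtain ⟨h1, h2⟩ := hR.2 _ hA
    exact ⟨h1, by omega⟩
  have hmem : ∀ w, w ∈ UU φ R ↔ ∃ A : Finset (Fin (n + 1)), A.card ∈ R ∧ wn φ A = w := by
    intro w
    unfold UU
    rw [Finset.mem_image]
    constructor
    · rintro ⟨A, hA, h⟩
      exact ⟨A, (Finset.mem_filter.1 hA).2, h⟩
    · rintro ⟨A, hA, h⟩
      exact ⟨A, Finset.mem_filter.2 ⟨Finset.mem_univ _, hA⟩, h⟩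
  have hUn : Un (UU φ R) := by
    intro w hw
    obtain ⟨A, hA, rfl⟩ := (hmem w).1 hw
    exact (hN2 A (hcd A hA).1 (hcd A hA).2).2.1
  have hcH : ∀ H : ℕ → ℝ, ∀ A : Finset (Fin (n + 1)), A.card ∈ R →
      cH φ R H (wn φ A) = H A.card / nu n A.card := by
    intro H A hA
    have hex : ∃ B : Finset (Fin (n + 1)), B.card ∈ R ∧ wn φ B = wn φ A := ⟨A, hA, rfl⟩
    have hB := hex.choose_spec
    have hBA : hex.choose = A :=
      (hN2 hex.choose (hcd _ hB.1).1 (hcd _ hB.1).2).2.2.2.2.2 A (hcd A hA).1 (hcd A hA).2 hB.2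
    unfold cH
    rw [dif_pos hex, hBA]
  have hPl : ∀ H : ℕ → ℝ, Pl (UU φ R) (cH φ R H) = PP φ R H := by
    intro H
    ext x
    constructor
    · intro hx r hr A hA
      subst hA
      have h1 := hx (wn φ A) ((hmem _).2 ⟨A, hr, rfl⟩)
      obtain ⟨hp, -, hi, -⟩ := hN2 A (hcd A hr).1 (hcd A hr).2
      rw [hcH H A hr, hi x] at h1
      exact (div_le_div_iff_of_pos_right hp).1 h1
    · intro hx w hw
      obtain ⟨A, hA, rfl⟩ := (hmem w).1 hw
      obtain ⟨hp, -, hi, -⟩ := hN2 A (hcd A hA).1 (hcd A hA).2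
      rw [hcH H A hA, hi x]
      exact (div_le_div_iff_of_pos_right hp).2 (hx A.card hA A rfl)
  have hBd : Bd (UU φ R) := by
    obtain ⟨r, hr⟩ := hR.1
    obtain ⟨hr1, hr2⟩ := hR.2 r hr
    have hz : Pl (UU φ R) (cH φ R (fun _ => 0)) = {0} := by
      rw [hPl]
      ext x
      rw [mem_singleton_iff]
      constructor
      · intro hx
        have h1 := zero_of_sums (fun i => φ x i) (hφ.sum x) r hr1 hr2 (fun A hA => hx r hr A hA)
        have h2 : φ x = 0 := by
          ext i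
          exact h1 i
        exact (map_eq_zero_iff φ φ.injective).1 h2
      · rintro rfl r' _ A _
        rw [map_zero]
        simp
    apply hBDL n (UU φ R) (cH φ R (fun _ => 0))
    · rw [hz]; exact singleton_nonempty 0
    · rw [hz]; exact Bornology.isBounded_singleton
  refine ⟨hUn, hBd, fun H => ⟨hPl H, hcH H, fun hH => ?_⟩⟩
  rw [← hPl H]
  refine ⟨Metric.isCompact_of_isClosed_isBounded (plc_closed _ _) (hBd _), plc_convex _ _, ?_⟩
  apply plc_full
  intro w hw
  obtain ⟨A, hA, rfl⟩ := (hmem w).1 hw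
  rw [hcH H A hA]
  exact div_pos (hH _ hA) (hN2 A (hcd A hA).1 (hcd A hA).2).1

end PVD.H12
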